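import Pool.Agent.PRAR.Ba

/-! # Section 7: choice of a section -/

set_option autoImplicit false
set_option linter.unusedSectionVars false

open scoped Classical

noncomputable section

namespace PRAR

variable {ι : Type} [Fintype ι] {F : Type} [Field F] [Fintype F]
variable {Y V : Type} [AddCommGroup Y] [Module F Y] [Fintype Y] [AddCommGroup V] [Module F V]
  [Fintype V]

theorem aa_ker (L : Y →ₗ[F] V) :
    prob (fun x : Y => L x = 0) = (qq F)⁻¹ ^ Module.finrank F (LinearMap.range L) := by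
  rw [← codim_ker L, ← prob_mem]
  exact prob_congr fun x => LinearMap.mem_ker.symm

theorem aa_rk_update {I : Finset ι} {T : (ι → Y) → V} (hT : MLin F I T) {i0 : ι} (h0 : i0 ∈ I)
    (y : ι → Y) (x : Y) : slotMap hT h0 (Function.update y i0 x) = slotMap hT h0 y := by
  ext u
  show T (Function.update (Function.update y i0 x) i0 u) = T (Function.update y i0 u)
  rw [Function.update_idem]

theorem aa_prob_comm {α β : Type} [Fintype α] [Fintype β] (p : α → β → Prop) :
    avg (fun x => prob (fun y => p x y)) = avg (fun y => prob (fun x => p x y)) := by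
  simp_rw [prob_eq_avg]
  exact avg_comm _

theorem exists_x0 {I : Finset ι} {T : (ι → Y) → V} (hT : MLin F I T) {i0 : ι} (h0 : i0 ∈ I)
    (a m : ℕ) (h : (qq F)⁻¹ ^ a ≤ prob (fun y : ι → Y => T y = 0)) :
    ∃ x0 : Y, (qq F)⁻¹ ^ (a + 1) ≤ prob (fun y : ι → Y => T (Function.update y i0 x0) = 0) ∧
      prob (fun y : ι → Y => T (Function.update y i0 x0) = 0 ∧
        m ≤ Module.finrank F (LinearMap.range (slotMap hT h0 y))) ≤
        (qq F) ^ (a + 1) * (qq F)⁻¹ ^ m := by
  have hq := qq_pos F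
  have hq2 := two_le_qq F
  set z : ℝ := prob (fun y : ι → Y => T y = 0) with hz
  set A : Y → ℝ := fun x => prob (fun y : ι → Y => T (Function.update y i0 x) = 0) with hA
  set B : Y → ℝ := fun x => prob (fun y : ι → Y => T (Function.update y i0 x) = 0 ∧
        m ≤ Module.finrank F (LinearMap.range (slotMap hT h0 y))) with hB
  have hz0 : 0 < z := lt_of_lt_of_le (by positivity) h
  have hAavg : avg A = z := by
    rw [hA, hz, aa_prob_comm]
    exact prob_update i0 (fun y => T y = 0)
  have hBavg : avg B ≤ (qq F)⁻¹ ^ m := by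
    rw [hB, aa_prob_comm]
    have h1 : avg (fun _ : ι → Y => (qq F)⁻¹ ^ m) = (qq F)⁻¹ ^ m := avg_const _
    rw [← h1]
    refine avg_mono fun y => ?_
    by_cases hm : m ≤ Module.finrank F (LinearMap.range (slotMap hT h0 y))
    · have h2 : prob (fun x : Y => T (Function.update y i0 x) = 0 ∧
          m ≤ Module.finrank F (LinearMap.range (slotMap hT h0 y))) ≤
          prob (fun x : Y => slotMap hT h0 y x = 0) := prob_mono fun x hx => hx.1
      refine h2.trans ?_
      rw [aa_ker]
      exact pow_le_pow_of_le_one (by positivity) (inv_le_one_of_one_le₀ (by linarith)) hm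
    · have h2 : prob (fun x : Y => T (Function.update y i0 x) = 0 ∧
          m ≤ Module.finrank F (LinearMap.range (slotMap hT h0 y))) = 0 := by
        have h3 : prob (fun x : Y => T (Function.update y i0 x) = 0 ∧
          m ≤ Module.finrank F (LinearMap.range (slotMap hT h0 y))) =
          prob (fun _ : Y => False) := prob_congr fun x => ⟨fun hx => hm hx.2, False.elim⟩
        rw [h3]
        simp [prob]
      rw [h2]
      positivity
  have hcard : (0 : ℝ) < (Fintype.card Y : ℝ) := by exact_mod_cast Fintype.card_pos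
  have hsum : ∑ x : Y, (z / 2 + z / 2 * (qq F) ^ m * B x) ≤ ∑ x : Y, A x := by
    have e1 : ∑ x : Y, A x = z * (Fintype.card Y : ℝ) := by
      rw [← hAavg]
      unfold avg
      field_simp
    have e2 : ∑ x : Y, B x ≤ (qq F)⁻¹ ^ m * (Fintype.card Y : ℝ) := by
      unfold avg at hBavg
      rwa [div_le_iff₀ hcard] at hBavg
    rw [Finset.sum_add_distrib, Finset.sum_const, ← Finset.mul_sum, e1, Finset.card_univ,
      nsmul_eq_mul]
    have e3 : z / 2 * (qq F) ^ m * ∑ x : Y, B x ≤
        z / 2 * (qq F) ^ m * ((qq F)⁻¹ ^ m * (Fintype.card Y : ℝ)) :=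
      mul_le_mul_of_nonneg_left e2 (by positivity)
    have e4 : z / 2 * (qq F) ^ m * ((qq F)⁻¹ ^ m * (Fintype.card Y : ℝ)) =
        z / 2 * (Fintype.card Y : ℝ) := by
      rw [inv_pow]
      field_simp
    rw [e4] at e3
    linarith
  obtain ⟨x0, -, hx0⟩ := Finset.exists_le_of_sum_le Finset.univ_nonempty hsum
  have hB0 : 0 ≤ B x0 := prob_nonneg _
  have hA1 : A x0 ≤ 1 := prob_le_one _
  refine ⟨x0, ?_, ?_⟩
  · show _ ≤ A x0
    have e1 : (qq F)⁻¹ ^ (a + 1) ≤ z / 2 := by
      rw [pow_succ]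
      have h2 : (qq F)⁻¹ ≤ 2⁻¹ := inv_anti₀ (by norm_num) hq2
      calc (qq F)⁻¹ ^ a * (qq F)⁻¹ ≤ z * 2⁻¹ := by gcongr
        _ = z / 2 := by ring
    have e2 : 0 ≤ z / 2 * (qq F) ^ m * B x0 := by positivity
    linarith
  · show B x0 ≤ _
    have e1 : z / 2 * (qq F) ^ m * B x0 ≤ 1 := by linarith [hz0]
    have e2 : (qq F)⁻¹ ^ (a + 1) ≤ z / 2 := by
      rw [pow_succ]
      have h2 : (qq F)⁻¹ ≤ 2⁻¹ := inv_anti₀ (by norm_num) hq2
      calc (qq F)⁻¹ ^ a * (qq F)⁻¹ ≤ z * 2⁻¹ := by gcongr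
        _ = z / 2 := by ring
    have e3 : (qq F)⁻¹ ^ (a + 1) * (qq F) ^ m * B x0 ≤ 1 :=
      le_trans (by gcongr) e1
    have e4 : B x0 = (qq F) ^ (a + 1) * (qq F)⁻¹ ^ m *
        ((qq F)⁻¹ ^ (a + 1) * (qq F) ^ m * B x0) := by
      rw [inv_pow, inv_pow]
      field_simp
    rw [e4]
    exact mul_le_of_le_one_right (by positivity) e3

end PRAR
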