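import Pool.Agent.PRAR.A.A

/-! # Lemma A -/

set_option autoImplicit false
set_option linter.unusedSectionVars false

open scoped Classical

noncomputable section

namespace PRAR

section az

variable {F : Type} [Field F] {Y V : Type} [AddCommGroup Y] [Module F Y]
  [AddCommGroup V] [Module F V] [Fintype V]

theorem az_rank_add (f g : Y →ₗ[F] V) : Module.finrank F (LinearMap.range (f + g)) ≤
    Module.finrank F (LinearMap.range f) + Module.finrank F (LinearMap.range g) := by
  refine (Submodule.finrank_mono (LinearMap.range_add_le f g)).trans ?_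
  exact Submodule.finrank_add_le_finrank_add_finrank _ _

theorem az_rank_smul (c : F) (f : Y →ₗ[F] V) : Module.finrank F (LinearMap.range (c • f)) ≤
    Module.finrank F (LinearMap.range f) := by
  refine Submodule.finrank_mono ?_
  rintro _ ⟨x, rfl⟩
  exact ⟨c • x, by simp⟩

theorem az_rank_sum {κ : Type*} (s : Finset κ) (f : κ → Y →ₗ[F] V) (m : ℕ)
    (h : ∀ k ∈ s, Module.finrank F (LinearMap.range (f k)) ≤ m) :
    Module.finrank F (LinearMap.range (∑ k ∈ s, f k)) ≤ s.card * m := by
  classical
  induction s using Finset.induction_on with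
  | empty =>
    rw [Finset.sum_empty, LinearMap.range_zero, finrank_bot]
    exact Nat.zero_le _
  | insert a s ha ih =>
    rw [Finset.sum_insert ha, Finset.card_insert_of_notMem ha]
    have h1 := h a (Finset.mem_insert_self a s)
    have h2 := ih fun k hk => h k (Finset.mem_insert_of_mem hk)
    refine (az_rank_add _ _).trans ?_
    calc _ ≤ m + s.card * m := Nat.add_le_add h1 h2
      _ = (s.card + 1) * m := by ring

end az

theorem lemA (ι : Type) [Fintype ι] (I : Finset ι) (i0 : ι) (C : ℕ) : StmtA ι I i0 C := by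
  refine ⟨2 ^ Fintype.card ι * (2 + 2 ^ Fintype.card ι * (2 * C) + Fintype.card ι) + 2 * C, ?_⟩
  intro F _ _ hD Y V _ _ _ _ _ _ T hT h0 a ha
  set n := Fintype.card ι with hn
  set R := C * (a + 1 + 1) with hR
  set m := a + 2 + 2 ^ n * R + n with hm
  obtain ⟨x0, hx1, hx2⟩ := exists_x0 hT h0 a m ha
  have hTx : MLin F (I.erase i0) (fun y : ι → Y => T (Function.update y i0 x0)) := by
    rw [Finset.erase_eq]
    exact bah_fix hT i0 x0
  obtain ⟨r, hr, g, hg, hsum⟩ := hD Y V _ hTx (a + 1) hx1
  choose J hJne hJsub p v hp hv hgp using hg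
  let P : Fam ι F Y :=
    { κ := Fin r
      fin := inferInstance
      ty := J
      p := p
      lin := hp
      ne := hJne }
  have hcard : P.card = r := by
    show Fintype.card (Fin r) = r
    exact Fintype.card_fin r
  have hzer : ∀ y ∈ P.zer, T (Function.update y i0 x0) = 0 := by
    intro y hy
    have h1 := hsum y
    simp only at h1
    rw [h1]
    refine Finset.sum_eq_zero fun s _ => ?_
    have h2 : p s y = 0 := hy s
    rw [hgp, h2, zero_smul]
  refine ⟨P, fun k => hJsub k, ?_, ?_⟩
  · rw [hcard]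
    refine hr.trans ?_
    have : C * (a + 1 + 1) ≤ 2 * C * (a + 1) := by nlinarith
    refine this.trans ?_
    exact Nat.mul_le_mul_right _ (Nat.le_add_left _ _)
  · intro y hy
    have hq := two_le_qq F
    have hq0 := qq_pos F
    have hbad : 2 ^ Fintype.card ι * prob (fun z : ι → Y => T (Function.update z i0 x0) = 0 ∧
        m ≤ Module.finrank F (LinearMap.range (slotMap hT h0 z))) <
        (qq F)⁻¹ ^ (2 ^ Fintype.card ι * P.card) := by
      have e1 : (qq F) ^ (a + 1) * (qq F)⁻¹ ^ m = (qq F)⁻¹ ^ (1 + 2 ^ n * R + n) := by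
        have e2 : m = (a + 1) + (1 + 2 ^ n * R + n) := by rw [hm]; ring
        rw [e2, pow_add (qq F)⁻¹ (a + 1), ← mul_assoc, ← mul_pow, mul_inv_cancel₀ hq0.ne', one_pow,
          one_mul]
      rw [e1] at hx2
      have e3 : (2 : ℝ) ^ n * (qq F)⁻¹ ^ (1 + 2 ^ n * R + n) ≤ (qq F)⁻¹ ^ (1 + 2 ^ n * R) := by
        rw [pow_add _ (1 + 2 ^ n * R) n]
        have e4 : (2 : ℝ) ^ n * (qq F)⁻¹ ^ n ≤ 1 := by
          rw [← mul_pow]
          refine pow_le_one₀ (by positivity) ?_
          rw [← div_eq_mul_inv, div_le_one hq0]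
          exact hq
        have e5 : 0 ≤ (qq F)⁻¹ ^ (1 + 2 ^ n * R) := by positivity
        nlinarith
      have e6 : (qq F)⁻¹ ^ (1 + 2 ^ n * R) < (qq F)⁻¹ ^ (2 ^ n * R) := by
        rw [pow_add, pow_one]
        have e7 : 0 < (qq F)⁻¹ ^ (2 ^ n * R) := by positivity
        have e8 : (qq F)⁻¹ < 1 := inv_lt_one_of_one_lt₀ (one_lt_qq F)
        nlinarith
      have e9 : (qq F)⁻¹ ^ (2 ^ n * R) ≤ (qq F)⁻¹ ^ (2 ^ Fintype.card ι * P.card) := by
        refine pow_le_pow_of_le_one (by positivity) (inv_le_one_of_one_le₀ (one_lt_qq F).le) ?_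
        rw [hcard]
        exact Nat.mul_le_mul_left _ hr
      calc (2 : ℝ) ^ Fintype.card ι * prob (fun z : ι → Y => T (Function.update z i0 x0) = 0 ∧
            m ≤ Module.finrank F (LinearMap.range (slotMap hT h0 z)))
          ≤ 2 ^ n * (qq F)⁻¹ ^ (1 + 2 ^ n * R + n) :=
            mul_le_mul_of_nonneg_left hx2 (by positivity)
        _ ≤ (qq F)⁻¹ ^ (1 + 2 ^ n * R) := e3
        _ < (qq F)⁻¹ ^ (2 ^ n * R) := e6
        _ ≤ _ := e9
    obtain ⟨v', hv'⟩ := exists_good_shift P hy _ hbad
    have hrk : ∀ K : Finset ι, Module.finrank F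
        (LinearMap.range (slotMap hT h0 (K.piecewise (y + v') v'))) ≤ m := by
      intro K
      obtain ⟨h1, h2⟩ := hv' K
      by_contra h3
      push Not at h3
      exact h2 ⟨hzer _ h1, h3.le⟩
    have hexp : slotMap hT h0 y = ∑ K ∈ (I.erase i0).powerset,
        (-1 : F) ^ ((I.erase i0) \ K).card • slotMap hT h0 (K.piecewise (y + v') v') := by
      ext x
      have h1 := hT.expand (Finset.erase_subset i0 I) y v' (Function.update y i0 x)
      have h2 : (I.erase i0).piecewise y (Function.update y i0 x) = Function.update y i0 x := by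
        ext j
        by_cases hj : j ∈ I.erase i0
        · rw [Finset.piecewise_eq_of_mem _ _ _ hj,
            Function.update_of_ne (Finset.ne_of_mem_erase hj)]
        · rw [Finset.piecewise_eq_of_notMem _ _ _ hj]
      rw [h2] at h1
      rw [LinearMap.sum_apply]
      show T (Function.update y i0 x) = _
      rw [h1]
      refine Finset.sum_congr rfl fun K _ => ?_
      rw [LinearMap.smul_apply]
      congr 1
      show _ = T (Function.update (K.piecewise (y + v') v') i0 x)
      apply hT.congr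
      intro i hi
      by_cases hii : i = i0
      · subst hii
        rw [Finset.piecewise_eq_of_notMem _ _ _ (Finset.notMem_erase i I), Function.update_self,
          Function.update_self]
      · rw [Finset.piecewise_eq_of_mem _ _ _ (Finset.mem_erase.mpr ⟨hii, hi⟩),
          Function.update_of_ne hii]
    rw [hexp]
    refine (az_rank_sum _ _ m fun K _ => (az_rank_smul _ _).trans (hrk K)).trans ?_
    rw [Finset.card_powerset]
    have h1 : 2 ^ (I.erase i0).card ≤ 2 ^ n :=
      Nat.pow_le_pow_right (by norm_num) (Finset.card_le_univ _)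
    have h2 : m ≤ (2 + 2 ^ n * (2 * C) + n) * (a + 1) := by
      rw [hm, hR]
      have h3 : C * (a + 1 + 1) ≤ (2 * C) * (a + 1) := by nlinarith
      have h4 : 2 ^ n * (C * (a + 1 + 1)) ≤ 2 ^ n * (2 * C) * (a + 1) := by
        rw [mul_assoc]
        exact Nat.mul_le_mul_left _ h3
      have h5 : n ≤ n * (a + 1) := Nat.le_mul_of_pos_right _ (Nat.succ_pos a)
      calc a + 2 + 2 ^ n * (C * (a + 1 + 1)) + n
          ≤ 2 * (a + 1) + 2 ^ n * (2 * C) * (a + 1) + n * (a + 1) := by omega
        _ = (2 + 2 ^ n * (2 * C) + n) * (a + 1) := by ring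
    calc 2 ^ (I.erase i0).card * m ≤ 2 ^ n * ((2 + 2 ^ n * (2 * C) + n) * (a + 1)) :=
          Nat.mul_le_mul h1 h2
      _ = 2 ^ n * (2 + 2 ^ n * (2 * C) + n) * (a + 1) := by ring
      _ ≤ (2 ^ n * (2 + 2 ^ n * (2 * C) + n) + 2 * C) * (a + 1) :=
          Nat.mul_le_mul_right _ (Nat.le_add_right _ _)

end PRAR
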